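import Mathlib

set_option autoImplicit false

namespace Pool.Agent.H236Z.RAlt

/-- The associator `(x, y, z) = (x y) z - x (y z)`. -/
def asc {A : Type*} [NonUnitalNonAssocRing A] (x y z : A) : A := (x * y) * z - x * (y * z)

/-- A ring (not necessarily associative or unital) is right alternative if `(x, y, y) = 0`. -/
def IsRAlt (A : Type*) [NonUnitalNonAssocRing A] : Prop := ∀ x y : A, asc x y y = 0

/-- The right associative center (right nucleus). -/
def Nr (A : Type*) [NonUnitalNonAssocRing A] : Set A := {n | ∀ x y : A, asc x y n = 0}

/-- The left associative center (left nucleus). -/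
def Nl (A : Type*) [NonUnitalNonAssocRing A] : Set A := {n | ∀ x y : A, asc n x y = 0}

/-- The alternative center. -/
def Nalt (A : Type*) [NonUnitalNonAssocRing A] : Set A :=
  {a | ∀ x y : A, asc a x y = -asc x a y ∧ -asc x a y = asc x y a}

/-- Polynomials: the free nonassociative ring with integer coefficients on countably many
generators. -/
abbrev Poly : Type := FreeNonUnitalNonAssocAlgebra ℤ ℕ

/-- The value of the polynomial `f` when the `i`-th variable is replaced by `a i`. -/
noncomputable def ev {A : Type*} [NonUnitalNonAssocRing A] (a : ℕ → A) (f : Poly) : A :=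
  FreeNonUnitalNonAssocAlgebra.lift ℤ a f

end Pool.Agent.H236Z.RAlt
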