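import Mathlib
import Pool.Agent.H236Z.RAlt.Defs

set_option autoImplicit false

namespace Pool.Agent.H236Z.RAlt

open FreeNonUnitalNonAssocAlgebra

universe u

section ev
variable {A : Type*} [NonUnitalNonAssocRing A] (a : ℕ → A)

@[simp] theorem ev_of (i : ℕ) : ev a (of ℤ i) = a i := lift_of_apply ℤ a i
@[simp] theorem ev_zero : ev a 0 = 0 := map_zero (lift ℤ a)
@[simp] theorem ev_add (f g : Poly) : ev a (f + g) = ev a f + ev a g := map_add (lift ℤ a) f g
@[simp] theorem ev_mul (f g : Poly) : ev a (f * g) = ev a f * ev a g := map_mul (lift ℤ a) f g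
@[simp] theorem ev_neg (f : Poly) : ev a (-f) = -ev a f := map_neg (lift ℤ a) f

end ev

theorem poly_ind {P : Poly → Prop} (hof : ∀ i, P (of ℤ i)) (h0 : P 0)
    (hadd : ∀ f g, P f → P g → P (f + g)) (hneg : ∀ f, P f → P (-f))
    (hmul : ∀ f g, P f → P g → P (f * g)) (f : Poly) : P f := by
  let S : NonUnitalSubring Poly :=
    { carrier := {f | P f}
      add_mem' := fun {f g} hf hg => hadd f g hf hg
      zero_mem' := h0
      mul_mem' := fun {f g} hf hg => hmul f g hf hg
      neg_mem' := fun {f} hf => hneg f hf }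
  let j : S →ₙₐ[ℤ] Poly :=
    { toFun := Subtype.val
      map_smul' := fun _ _ => rfl
      map_zero' := rfl
      map_add' := fun _ _ => rfl
      map_mul' := fun _ _ => rfl }
  have h : j.comp (lift ℤ (fun i => (⟨of ℤ i, hof i⟩ : S))) = NonUnitalAlgHom.id ℤ Poly := by
    apply hom_ext
    intro i
    simp [j]
  have h2 : j (lift ℤ (fun i => (⟨of ℤ i, hof i⟩ : S)) f) = f := DFunLike.congr_fun h f
  rw [← h2]
  exact (lift ℤ (fun i => (⟨of ℤ i, hof i⟩ : S)) f).2

/-- Split null extension of `C` by the module `C →+ W` acted on by right multiplications. -/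
@[ext] structure Ext (C W : Type u) [NonUnitalNonAssocRing C] [AddCommGroup W] where
  c : C
  m : C →+ W

namespace Ext
variable {C W : Type u} [NonUnitalNonAssocRing C] [AddCommGroup W]

def eqv : Ext C W ≃ C × (C →+ W) where
  toFun x := (x.c, x.m)
  invFun p := ⟨p.1, p.2⟩
  left_inv _ := rfl
  right_inv _ := rfl

instance : AddCommGroup (Ext C W) := eqv.addCommGroup

@[simp] theorem add_c (x y : Ext C W) : (x + y).c = x.c + y.c := rfl
@[simp] theorem add_m (x y : Ext C W) : (x + y).m = x.m + y.m := rfl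
@[simp] theorem sub_c (x y : Ext C W) : (x - y).c = x.c - y.c := rfl
@[simp] theorem sub_m (x y : Ext C W) : (x - y).m = x.m - y.m := rfl
@[simp] theorem neg_c (x : Ext C W) : (-x).c = -x.c := rfl
@[simp] theorem neg_m (x : Ext C W) : (-x).m = -x.m := rfl
@[simp] theorem zero_c : (0 : Ext C W).c = 0 := rfl
@[simp] theorem zero_m : (0 : Ext C W).m = 0 := rfl

instance : Mul (Ext C W) := ⟨fun x y => ⟨x.c * y.c, x.m.comp (AddMonoidHom.mulRight y.c)⟩⟩

@[simp] theorem mul_c (x y : Ext C W) : (x * y).c = x.c * y.c := rfl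
@[simp] theorem mul_m (x y : Ext C W) (w : C) : (x * y).m w = x.m (w * y.c) := rfl

instance : NonUnitalNonAssocRing (Ext C W) where
  left_distrib x y z := by
    ext w
    · simp [mul_add]
    · simp [mul_add]
  right_distrib x y z := by
    ext w
    · simp [add_mul]
    · simp
  zero_mul x := by
    ext w
    · simp
    · simp
  mul_zero x := by
    ext w
    · simp
    · simp

theorem isRAlt (h : IsRAlt C) : IsRAlt (Ext C W) := by
  intro x y
  ext w
  · simpa [asc] using h x.c y.c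
  · have := h w y.c
    simp only [asc, sub_eq_zero] at this
    simp [asc, this]

end Ext

theorem isRAlt_unit {A : Type u} [NonUnitalNonAssocRing A] (h : IsRAlt A) :
    IsRAlt (Unitization ℤ A) := by
  intro x y
  have h1 := h x.snd y.snd
  simp only [asc, sub_eq_zero] at h1 ⊢
  ext
  · simp [mul_assoc]
  · simp only [Unitization.snd_mul, Unitization.fst_mul, add_mul, mul_add, smul_add,
      smul_mul_assoc, mul_smul_comm, h1, smul_smul]
    module

theorem ev_inr {A : Type u} [NonUnitalNonAssocRing A] (a : ℕ → A) (f : Poly) :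
    ev (fun i => (a i : Unitization ℤ A)) f = (ev a f : A) := by
  induction f using poly_ind with
  | hof i => simp
  | h0 => simp
  | hadd f g hf hg => simp [hf, hg]
  | hneg f hf => simp [hf]
  | hmul f g hf hg => simp [hf, hg]

section core
variable (A : Type u) [NonAssocRing A]

abbrev BB : Type u := Ext A A
abbrev CC : Type u := Unitization ℤ (BB A)
abbrev DD : Type u := Ext (CC A) A

variable {A}

def iB (a : A) : BB A := ⟨a, 0⟩
def iM (m : A →+ A) : BB A := ⟨0, m⟩

/-- evaluate the operator component at `a` -/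
def psi (a : A) : CC A →+ A where
  toFun c := c.snd.m a
  map_zero' := by simp
  map_add' x y := by simp

def asg (a : ℕ → A) (i : ℕ) : DD A := ⟨(iB (a i) : CC A), psi (a i)⟩

theorem isRAlt_DD (h : IsRAlt A) : IsRAlt (DD A) :=
  Ext.isRAlt (isRAlt_unit (Ext.isRAlt h))

theorem iB_mul (a b : A) : iB (a * b) = iB a * iB b := by
  ext w
  · rfl
  · rfl

theorem iB_add (a b : A) : iB (a + b) = iB a + iB b := by
  ext w
  · rfl
  · simp [iB]

theorem iB_neg (a : A) : iB (-a) = -iB a := by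
  ext w
  · rfl
  · simp [iB]

theorem iB_zero : iB (0 : A) = 0 := rfl

theorem iM_mul_iB (m : A →+ A) (b : A) :
    iM m * iB b = iM (m.comp (AddMonoidHom.mulRight b)) := by
  ext w
  · simp [iM, iB]
  · rfl

theorem iB_mul_iM (m : A →+ A) (b : A) : iB b * iM m = 0 := by
  ext w
  · simp [iM, iB]
  · simp [iM, iB]

theorem ev_asg (a : ℕ → A) (f : Poly) :
    (ev (asg a) f).c = (iB (ev a f) : CC A) ∧
      ∀ m : A →+ A, (ev (asg a) f).m (iM m : CC A) = m (ev a f) := by
  induction f using poly_ind with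
  | hof i => exact ⟨by simp [asg], fun m => by simp [asg, psi, iM]⟩
  | h0 => exact ⟨by simp [iB_zero], fun m => by simp⟩
  | hadd f g hf hg => exact ⟨by simp [hf.1, hg.1, iB_add], fun m => by simp [hf.2, hg.2]⟩
  | hneg f hf => exact ⟨by simp [hf.1, iB_neg], fun m => by simp [hf.2]⟩
  | hmul f g hf hg =>
    refine ⟨by simp [hf.1, hg.1, iB_mul], fun m => ?_⟩
    rw [ev_mul, Ext.mul_m, hg.1, ← Unitization.inr_mul, iM_mul_iB, hf.2]
    simp

theorem core_l (a : ℕ → A) (f : Poly) (h : ev (asg a) f ∈ Nl (DD A)) : ev a f = 0 := by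
  have h1 := congrArg (fun d : DD A => d.m 1)
    (h ⟨(iB (1 : A) : CC A), 0⟩ ⟨(iM (AddMonoidHom.id A) : CC A), 0⟩)
  simp only [asc, Ext.sub_m, AddMonoidHom.sub_apply, Ext.mul_m, Ext.mul_c, one_mul,
    ← Unitization.inr_mul, iM_mul_iB, iB_mul_iM, (ev_asg a f).2, Ext.zero_m] at h1
  simpa using h1

theorem core_r (a : ℕ → A) (f : Poly) (h : ev (asg a) f ∈ Nr (DD A)) : ev a f = 0 := by
  have h1 := congrArg (fun d : DD A => d.m 1)
    (h ⟨0, psi 1⟩ ⟨(iM (AddMonoidHom.id A) : CC A), 0⟩)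
  simp only [asc, Ext.sub_m, AddMonoidHom.sub_apply, Ext.mul_m, Ext.mul_c, one_mul,
    (ev_asg a f).1, ← Unitization.inr_mul, iM_mul_iB, iB_mul_iM, Ext.zero_m] at h1
  simpa [psi, iM] using h1

theorem core_alt (a : ℕ → A) (f : Poly) (h : ev (asg a) f ∈ Nalt (DD A)) : ev a f = 0 := by
  have h1 := congrArg (fun d : DD A => d.m 1)
    (h ⟨0, psi 1⟩ ⟨(iM (AddMonoidHom.id A) : CC A), 0⟩).1
  simp only [asc, Ext.sub_m, Ext.neg_m, AddMonoidHom.neg_apply, AddMonoidHom.sub_apply, Ext.mul_m,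
    Ext.mul_c, one_mul, mul_zero, zero_mul, map_zero,
    (ev_asg a f).1, ← Unitization.inr_mul, iM_mul_iB, iB_mul_iM] at h1
  simpa [psi, iM] using h1

end core

theorem transfer {A : Type u} [NonUnitalNonAssocRing A] (a : ℕ → A) (f : Poly)
    (h : ev (fun i => (a i : Unitization ℤ A)) f = 0) : ev a f = 0 := by
  rw [ev_inr] at h
  simpa using congrArg (fun z : Unitization ℤ A => z.snd) h

theorem main_r (f : Poly)
    (h : ∀ (A : Type u) [NonUnitalNonAssocRing A], IsRAlt A → ∀ a : ℕ → A, ev a f ∈ Nr A)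
    (A : Type u) [NonUnitalNonAssocRing A] (hA : IsRAlt A) (a : ℕ → A) : ev a f = 0 :=
  transfer a f (core_r _ f (h _ (isRAlt_DD (isRAlt_unit hA)) _))

theorem main_l (f : Poly)
    (h : ∀ (A : Type u) [NonUnitalNonAssocRing A], IsRAlt A → ∀ a : ℕ → A, ev a f ∈ Nl A)
    (A : Type u) [NonUnitalNonAssocRing A] (hA : IsRAlt A) (a : ℕ → A) : ev a f = 0 :=
  transfer a f (core_l _ f (h _ (isRAlt_DD (isRAlt_unit hA)) _))

theorem main_alt (f : Poly)
    (h : ∀ (A : Type u) [NonUnitalNonAssocRing A], IsRAlt A → ∀ a : ℕ → A, ev a f ∈ Nalt A)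
    (A : Type u) [NonUnitalNonAssocRing A] (hA : IsRAlt A) (a : ℕ → A) : ev a f = 0 :=
  transfer a f (core_alt _ f (h _ (isRAlt_DD (isRAlt_unit hA)) _))

end Pool.Agent.H236Z.RAlt
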